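import Pool.Agent.H612.ClosedHard

/-!
# Deciding closedness of semialgebraic sets is `∀ℝ`-complete

Instances are pairs `(n, φ)`, where `φ` is an arbitrary Boolean combination of atoms `p = 0`,
`p > 0`, `p ≥ 0` with `p ∈ ℤ[x₁, …, xₙ]` written as a sum of monomials; the question is whether
`{x ∈ ℝⁿ : φ(x)}` is closed.

* Membership in `∀ℝ`. The set is not closed iff for some `R` and for arbitrarily small `δ > 0` there
  is a point `y` with `yᵢ² ≤ R`, `φ(y)`, with `p(y)² ≤ δ` or `p(y)² R ≥ 1` for each polynomial `p` of
  `φ`, such that `φ` becomes false when the values with `p(y)² ≤ δ` are replaced by zero. An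
  effective bound for limits of infima on the solution set of a system of equations (proved with
  integer resultant-like relations of controlled size) shows that `R = 2 ^ 2 ^ k` and
  `δ = 2 ^ - 2 ^ l` with `k`, `l` polynomial in the size of the input are good enough, and these
  numbers are defined by repeated squaring.
* Hardness: an unsatisfiable system of equations defines, together with `t > 0`, the empty set, a
  satisfiable one a set which is not closed.
-/

namespace Pool.Agent.Results.MP_432bcd_lc.ClosednessComplete

open Pool.Agent.NPC Pool.Agent.NPC.ER Pool.Agent.NPC.H612

theorem result : ARComplete (lang Closedness) := closedness_arComplete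

end Pool.Agent.Results.MP_432bcd_lc.ClosednessComplete
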